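import Pool.Agent.W251.EX.Defs3
import Pool.Agent.W397.EX.Finj

/-!
Project EX, part 3 (helper251): equidistribution in windows at almost all scales from `S_CHRW`.
-/

set_option autoImplicit false

namespace Pool.Agent.W723.EX

open Finset Filter
open Pool.Agent.W78.EC (SP)
open Pool.Agent.W251.EX
open Pool.Agent.W397.EX (ind_eq)

open scoped Classical in
/-- the character sums -/
noncomputable def UU (q a r : ℕ) (s₁ s₂ s₃ s₄ : ℝ) (b₁ b₂ : ℂ) (X : ℕ) : ℂ :=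
  ∑ p ∈ SW q a r s₁ s₂ s₃ s₄ X, b₁ ^ ArithmeticFunction.cardFactors p.1 * b₂ ^ ArithmeticFunction.cardFactors p.2

open scoped Classical in
theorem dev_le {k : ℕ} (hk : 1 ≤ k) {ζ : ℂ} (hζ : IsPrimitiveRoot ζ k) (q a r i j : ℕ)
    (s₁ s₂ s₃ s₄ : ℝ) (X : ℕ) :
    devW k q a r i j s₁ s₂ s₃ s₄ X ≤ ∑ e ∈ (range k ×ˢ range k).erase (0, 0),
      ‖UU q a r s₁ s₂ s₃ s₄ (ζ ^ e.1) (ζ ^ e.2) X‖ := by
  obtain ⟨c, hc⟩ : ∃ c : ℕ × ℕ → ℂ, c = fun e =>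
      (ζ ^ e.1) ^ ((k - 1) * i) * (ζ ^ e.2) ^ ((k - 1) * j) := ⟨_, rfl⟩
  have hn : ‖ζ‖ = 1 := hζ.norm'_eq_one (by omega)
  have hcn : ∀ e, ‖c e‖ = 1 := by
    intro e
    rw [hc]
    simp only [norm_mul, norm_pow, hn, one_pow, mul_one]
  have key : (((((SW q a r s₁ s₂ s₃ s₄ X).filter (fun p =>
      ArithmeticFunction.cardFactors p.1 ≡ i [MOD k] ∧
      ArithmeticFunction.cardFactors p.2 ≡ j [MOD k])).card : ℝ) : ℝ) : ℂ) =
      1 / (k : ℂ) ^ 2 * ∑ e ∈ range k ×ˢ range k, c e *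
        UU q a r s₁ s₂ s₃ s₄ (ζ ^ e.1) (ζ ^ e.2) X := by
    have h1 : ∑ e ∈ range k ×ˢ range k, c e * UU q a r s₁ s₂ s₃ s₄ (ζ ^ e.1) (ζ ^ e.2) X =
        ∑ p ∈ SW q a r s₁ s₂ s₃ s₄ X, ∑ e ∈ range k ×ˢ range k, c e *
          ((ζ ^ e.1) ^ ArithmeticFunction.cardFactors p.1 *
            (ζ ^ e.2) ^ ArithmeticFunction.cardFactors p.2 / 1) := by
      rw [Finset.sum_comm]
      refine Finset.sum_congr rfl fun e _ => ?_
      rw [UU, Finset.mul_sum]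
      refine Finset.sum_congr rfl fun p _ => ?_
      rw [div_one]
    rw [h1, Finset.mul_sum, Finset.card_filter, Nat.cast_sum, Complex.ofReal_sum]
    refine Finset.sum_congr rfl fun p _ => ?_
    rw [hc, ← ind_eq hk hζ]
    by_cases h2 : ArithmeticFunction.cardFactors p.1 ≡ i [MOD k] ∧
      ArithmeticFunction.cardFactors p.2 ≡ j [MOD k]
    · rw [if_pos h2, if_pos h2]
      simp
    · rw [if_neg h2, if_neg h2]
      simp
  have h0 : ((((SW q a r s₁ s₂ s₃ s₄ X).card : ℝ) : ℝ) : ℂ) = UU q a r s₁ s₂ s₃ s₄ (ζ ^ 0) (ζ ^ 0) X := by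
    rw [UU]
    simp
  have h00 : ((0, 0) : ℕ × ℕ) ∈ range k ×ˢ range k := by
    rw [Finset.mem_product]
    exact ⟨Finset.mem_range.2 (by omega), Finset.mem_range.2 (by omega)⟩
  have hc0 : c (0, 0) = 1 := by rw [hc]; simp
  have hk2 : (1 : ℝ) ≤ (k : ℝ) ^ 2 := by
    have : (1 : ℝ) ≤ k := by exact_mod_cast hk
    nlinarith
  rw [devW, ← Real.norm_eq_abs, ← Complex.norm_real, Complex.ofReal_sub, key, Complex.ofReal_mul,
    h0]
  have h3 : 1 / (k : ℂ) ^ 2 * ∑ e ∈ range k ×ˢ range k, c e * UU q a r s₁ s₂ s₃ s₄ (ζ ^ e.1) (ζ ^ e.2) X -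
      ((1 / (k : ℝ) ^ 2 : ℝ) : ℂ) * UU q a r s₁ s₂ s₃ s₄ (ζ ^ 0) (ζ ^ 0) X =
      1 / (k : ℂ) ^ 2 * ∑ e ∈ (range k ×ˢ range k).erase (0, 0),
        c e * UU q a r s₁ s₂ s₃ s₄ (ζ ^ e.1) (ζ ^ e.2) X := by
    rw [← Finset.add_sum_erase _ _ h00, hc0, one_mul]
    push_cast
    ring
  rw [h3, norm_mul]
  have h4 : ‖(1 : ℂ) / (k : ℂ) ^ 2‖ ≤ 1 := by
    rw [norm_div, norm_one, norm_pow, Complex.norm_natCast]
    exact (div_le_one (by linarith)).2 hk2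
  calc ‖(1 : ℂ) / (k : ℂ) ^ 2‖ * ‖∑ e ∈ (range k ×ˢ range k).erase (0, 0),
        c e * UU q a r s₁ s₂ s₃ s₄ (ζ ^ e.1) (ζ ^ e.2) X‖
      ≤ 1 * ‖∑ e ∈ (range k ×ˢ range k).erase (0, 0),
        c e * UU q a r s₁ s₂ s₃ s₄ (ζ ^ e.1) (ζ ^ e.2) X‖ := mul_le_mul_of_nonneg_right h4 (norm_nonneg _)
    _ ≤ ∑ e ∈ (range k ×ˢ range k).erase (0, 0), ‖UU q a r s₁ s₂ s₃ s₄ (ζ ^ e.1) (ζ ^ e.2) X‖ := by
        rw [one_mul]
        refine (norm_sum_le _ _).trans (Finset.sum_le_sum fun e _ => ?_)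
        rw [norm_mul, hcn, one_mul]

open scoped Classical in
theorem finw (h : S_CHRW) : S_FINW := by
  intro k hk q a r hq i j s₁ s₂ s₃ s₄ hs1 hs2 hs3 hs4 hs5 hs6 ε hε
  obtain ⟨ζ, hζ⟩ : ∃ ζ : ℂ, IsPrimitiveRoot ζ k :=
    ⟨_, Complex.isPrimitiveRoot_exp k (by omega)⟩
  have hζk : ∀ l, (ζ ^ l) ^ k = 1 := fun l => by
    rw [← pow_mul, mul_comm, pow_mul, hζ.pow_eq_one, one_pow]
  rw [Metric.tendsto_atTop]
  intro δ hδ
  set E := (range k ×ˢ range k).erase ((0, 0) : ℕ × ℕ) with hE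
  set ε' : ℝ := ε * δ / (2 * (E.card + 1)) with hε'
  have hε'0 : 0 < ε' := by positivity
  have hN0 : ∀ e : ℕ × ℕ, ∃ N₀ : ℕ, e ∈ E → ∀ N : ℕ, N₀ ≤ N →
      ∑ X ∈ Icc 1 N, 1 / (X : ℝ) ^ 2 * ‖UU q a r s₁ s₂ s₃ s₄ (ζ ^ e.1) (ζ ^ e.2) X‖ ≤
        ε' * Real.log N := by
    intro e
    by_cases he : e ∈ E
    · obtain ⟨he1, he2⟩ := Finset.mem_erase.1 he
      obtain ⟨he3, he4⟩ := Finset.mem_product.1 he2
      have hne : ζ ^ e.1 ≠ 1 ∨ ζ ^ e.2 ≠ 1 := by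
        by_contra hno
        push Not at hno
        apply he1
        have e1 : e.1 = 0 := by
          by_contra h5
          exact hζ.pow_ne_one_of_pos_of_lt h5 (Finset.mem_range.1 he3) hno.1
        have e2 : e.2 = 0 := by
          by_contra h5
          exact hζ.pow_ne_one_of_pos_of_lt h5 (Finset.mem_range.1 he4) hno.2
        exact Prod.ext e1 e2
      obtain ⟨N₀, hN₀⟩ := h k (ζ ^ e.1) (ζ ^ e.2) hk (hζk _) (hζk _) hne q a r hq s₁ s₂ s₃ s₄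
        hs1 hs2 hs3 hs4 hs5 hs6 ε' hε'0
      exact ⟨N₀, fun _ => hN₀⟩
    · exact ⟨0, fun h' => absurd h' he⟩
  choose N₀ hN₀ using hN0
  refine ⟨max (E.sup N₀) 3, fun N hN => ?_⟩
  have hN3 : 3 ≤ N := (le_max_right _ _).trans hN
  have hlog : 0 < Real.log N := Real.log_pos (by
    have : (3 : ℝ) ≤ N := by exact_mod_cast hN3
    linarith)
  have hS0 : 0 ≤ ∑ X ∈ (Icc 1 N).filter (fun X : ℕ => ε * X < devW k q a r i j s₁ s₂ s₃ s₄ X), 1 / (X : ℝ) :=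
    Finset.sum_nonneg fun X _ => by positivity
  rw [Real.dist_eq, sub_zero, abs_of_nonneg (div_nonneg hS0 hlog.le), div_lt_iff₀ hlog]
  have h1 : ∑ X ∈ (Icc 1 N).filter (fun X : ℕ => ε * X < devW k q a r i j s₁ s₂ s₃ s₄ X), 1 / (X : ℝ) ≤
      ∑ X ∈ Icc 1 N, 1 / ε * (1 / (X : ℝ) ^ 2 * devW k q a r i j s₁ s₂ s₃ s₄ X) := by
    calc ∑ X ∈ (Icc 1 N).filter (fun X : ℕ => ε * X < devW k q a r i j s₁ s₂ s₃ s₄ X), 1 / (X : ℝ)
        ≤ ∑ X ∈ (Icc 1 N).filter (fun X : ℕ => ε * X < devW k q a r i j s₁ s₂ s₃ s₄ X),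
          1 / ε * (1 / (X : ℝ) ^ 2 * devW k q a r i j s₁ s₂ s₃ s₄ X) := by
          refine Finset.sum_le_sum fun X hX => ?_
          obtain ⟨hX1, hX2⟩ := Finset.mem_filter.1 hX
          have hX0 : (0 : ℝ) < X := by
            have := (Finset.mem_Icc.1 hX1).1
            exact_mod_cast this
          have e1 : 1 / (X : ℝ) = 1 / ε * (1 / (X : ℝ) ^ 2 * (ε * X)) := by
            field_simp
          rw [e1]
          refine mul_le_mul_of_nonneg_left ?_ (by positivity)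
          exact mul_le_mul_of_nonneg_left hX2.le (by positivity)
      _ ≤ ∑ X ∈ Icc 1 N, 1 / ε * (1 / (X : ℝ) ^ 2 * devW k q a r i j s₁ s₂ s₃ s₄ X) := by
          refine Finset.sum_le_sum_of_subset_of_nonneg (Finset.filter_subset _ _) fun X _ _ => ?_
          have : 0 ≤ devW k q a r i j s₁ s₂ s₃ s₄ X := abs_nonneg _
          positivity
  have h2 : ∑ X ∈ Icc 1 N, 1 / (X : ℝ) ^ 2 * devW k q a r i j s₁ s₂ s₃ s₄ X ≤ E.card * (ε' * Real.log N) := by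
    calc ∑ X ∈ Icc 1 N, 1 / (X : ℝ) ^ 2 * devW k q a r i j s₁ s₂ s₃ s₄ X
        ≤ ∑ X ∈ Icc 1 N, 1 / (X : ℝ) ^ 2 * ∑ e ∈ E, ‖UU q a r s₁ s₂ s₃ s₄ (ζ ^ e.1) (ζ ^ e.2) X‖ :=
          Finset.sum_le_sum fun X _ =>
            mul_le_mul_of_nonneg_left (dev_le hk hζ q a r i j s₁ s₂ s₃ s₄ X) (by positivity)
      _ = ∑ e ∈ E, ∑ X ∈ Icc 1 N, 1 / (X : ℝ) ^ 2 * ‖UU q a r s₁ s₂ s₃ s₄ (ζ ^ e.1) (ζ ^ e.2) X‖ := by
          simp_rw [Finset.mul_sum]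
          rw [Finset.sum_comm]
      _ ≤ ∑ _e ∈ E, ε' * Real.log N := by
          refine Finset.sum_le_sum fun e he => hN₀ e he N ?_
          exact (Finset.le_sup he).trans ((le_max_left _ _).trans hN)
      _ = E.card * (ε' * Real.log N) := by rw [Finset.sum_const, nsmul_eq_mul]
  have h3 : 1 / ε * (E.card * (ε' * Real.log N)) < δ * Real.log N := by
    have hc1 : (0 : ℝ) < 2 * (E.card + 1) := by positivity
    have e1 : 1 / ε * (E.card * (ε' * Real.log N)) =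
        (E.card / (2 * (E.card + 1))) * (δ * Real.log N) := by
      rw [hε']
      field_simp
    have h4 : (E.card : ℝ) / (2 * (E.card + 1)) < 1 := by
      rw [div_lt_one hc1]
      have : (0 : ℝ) ≤ E.card := Nat.cast_nonneg _
      linarith
    rw [e1]
    have h5 : 0 < δ * Real.log N := mul_pos hδ hlog
    nlinarith
  calc ∑ X ∈ (Icc 1 N).filter (fun X : ℕ => ε * X < devW k q a r i j s₁ s₂ s₃ s₄ X), 1 / (X : ℝ)
      ≤ ∑ X ∈ Icc 1 N, 1 / ε * (1 / (X : ℝ) ^ 2 * devW k q a r i j s₁ s₂ s₃ s₄ X) := h1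
    _ = 1 / ε * ∑ X ∈ Icc 1 N, 1 / (X : ℝ) ^ 2 * devW k q a r i j s₁ s₂ s₃ s₄ X := by rw [Finset.mul_sum]
    _ ≤ 1 / ε * (E.card * (ε' * Real.log N)) :=
        mul_le_mul_of_nonneg_left h2 (by positivity)
    _ < δ * Real.log N := h3

end Pool.Agent.W723.EX
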